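import Pool.Agent.Helper55K1.LK.Core

set_option autoImplicit false

/-!
Rigidity theory of graphs. For every dimension `d`: if a pair of vertices `u`, `v` of a finite
graph `G` is linked in `G` in dimension `d + 1` (adding the edge `uv` does not change the rank in
the generic rigidity matroid of dimension `d + 1`), then it is globally linked in `G` in
dimension `d` (its distance is the same in all realizations which have the same edge lengths as
a generic one).
-/

namespace Pool.Agent.Results.MP_32f1bc_co.LinkedGloballyLinked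

universe w

/-- The realization `p` is generic: its `d |V|` coordinates are algebraically independent over
the rational numbers. -/
def IsGeneric {V : Type w} {d : ℕ} (p : V → EuclideanSpace ℝ (Fin d)) : Prop :=
  AlgebraicIndependent ℚ (fun i : V × Fin d => p i.1 i.2)

/-- The row of the rigidity matrix of `p` for the pair `xy`: it has `p x - p y` in the `d` columns
of `x`, `p y - p x` in those of `y`, and zeros elsewhere. -/
def rigidityRow {V : Type w} [DecidableEq V] {d : ℕ} (p : V → EuclideanSpace ℝ (Fin d))
    (x y : V) : V × Fin d → ℝ :=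
  fun c => (if c.1 = x then p x c.2 - p y c.2 else 0) + (if c.1 = y then p y c.2 - p x c.2 else 0)

/-- The rank of the rigidity matrix of `(G, p)`: the dimension of the span of the rows of the
edges of `G`. -/
noncomputable def frameworkRank {V : Type w} [DecidableEq V] {d : ℕ} (G : SimpleGraph V)
    (p : V → EuclideanSpace ℝ (Fin d)) : ℕ :=
  Module.finrank ℝ (Submodule.span ℝ {r | ∃ x y, G.Adj x y ∧ r = rigidityRow p x y})

/-- The rank `r_d(G)` of `G` in the generic rigidity matroid of dimension `d`: the rank of the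
rigidity matrix of a generic realization (by the theorem below, these ranks are all equal). -/
noncomputable def genericRank {V : Type w} [DecidableEq V] (d : ℕ) (G : SimpleGraph V) : ℕ :=
  sSup {n | ∃ p : V → EuclideanSpace ℝ (Fin d), IsGeneric p ∧ n = frameworkRank G p}

/-- The pair `{u, v}` is linked in `G` in dimension `d`: `r_d(G + uv) = r_d(G)`. -/
def Linked {V : Type w} [DecidableEq V] (d : ℕ) (G : SimpleGraph V) (u v : V) : Prop :=
  genericRank d (G ⊔ SimpleGraph.edge u v) = genericRank d G

/-- The realizations `(G, p)` and `(G, q)` are equivalent: equal edge lengths. -/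
def Equivalent {V : Type w} {d : ℕ} (G : SimpleGraph V) (p q : V → EuclideanSpace ℝ (Fin d)) :
    Prop :=
  ∀ x y, G.Adj x y → ‖p x - p y‖ = ‖q x - q y‖

/-- The pair `{u, v}` is globally linked in `G` in dimension `d`: for every generic realization
`(G, p)` and every equivalent realization `(G, q)`, the distances of `u` and `v` are equal. -/
def GloballyLinked {V : Type w} (d : ℕ) (G : SimpleGraph V) (u v : V) : Prop :=
  ∀ p : V → EuclideanSpace ℝ (Fin d), IsGeneric p →
    ∀ q : V → EuclideanSpace ℝ (Fin d), Equivalent G p q → ‖p u - p v‖ = ‖q u - q v‖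

section aux

open Pool.Agent.H135R2.VS Pool.Agent.Helper55K1.LK Set Matrix MvPolynomial

variable {V : Type w} [Fintype V] [DecidableEq V] {d : ℕ}

/-- Coordinates. -/
def co (p : V → EuclideanSpace ℝ (Fin d)) : Conf d V := fun i a => p i a

theorem gen_co {p : V → EuclideanSpace ℝ (Fin d)} : Gen (co p) ↔ IsGeneric p := Iff.rfl

theorem row_eq (G : SimpleGraph V) (p : V → EuclideanSpace ℝ (Fin d)) (e : V × V)
    (he : G.Adj e.1 e.2) : (evm (Rp d ⊥ G) (unc (co p))) e = rigidityRow p e.1 e.2 := by
  funext c
  simp only [evm, Matrix.map_apply, Rp, Matrix.of_apply, if_pos he, rigidityRow, map_add]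
  split_ifs <;> simp [unc, co]

theorem row_zero (G : SimpleGraph V) (p : V → EuclideanSpace ℝ (Fin d)) (e : V × V)
    (he : ¬ G.Adj e.1 e.2) : (evm (Rp d ⊥ G) (unc (co p))) e = 0 := by
  ext c
  simp [evm, Matrix.map_apply, Rp, Matrix.of_apply, he]

theorem rank_eq (G : SimpleGraph V) (p : V → EuclideanSpace ℝ (Fin d)) :
    frameworkRank G p = (evm (Rp d ⊥ G) (unc (co p))).rank := by
  rw [Matrix.rank_eq_finrank_span_row]
  have h : Submodule.span ℝ {r | ∃ x y, G.Adj x y ∧ r = rigidityRow p x y} =
      Submodule.span ℝ (range (evm (Rp d ⊥ G) (unc (co p))).row) := by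
    apply le_antisymm
    · apply Submodule.span_mono
      rintro _ ⟨x, y, hxy, rfl⟩
      exact ⟨(x, y), row_eq G p (x, y) hxy⟩
    · rw [Submodule.span_le]
      rintro _ ⟨e, rfl⟩
      by_cases he : G.Adj e.1 e.2
      · exact Submodule.subset_span ⟨e.1, e.2, he, row_eq G p e he⟩
      · have h0 : (evm (Rp d ⊥ G) (unc (co p))).row e = 0 := row_zero G p e he
        rw [h0]
        exact Submodule.zero_mem _
  unfold frameworkRank
  rw [h]

theorem rank_const (G : SimpleGraph V) {p q : V → EuclideanSpace ℝ (Fin d)} (hp : IsGeneric p)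
    (hq : IsGeneric q) : frameworkRank G p = frameworkRank G q := by
  rw [rank_eq, rank_eq]
  exact le_antisymm (rank_le_generic (Rp d ⊥ G) (bot_of_rat hq))
    (rank_le_generic (Rp d ⊥ G) (bot_of_rat hp))

theorem genericRank_eq (G : SimpleGraph V) {p : V → EuclideanSpace ℝ (Fin d)}
    (hp : IsGeneric p) : frameworkRank G p = genericRank d G := by
  have h : {n | ∃ p : V → EuclideanSpace ℝ (Fin d), IsGeneric p ∧ n = frameworkRank G p} =
      {frameworkRank G p} := by
    ext n
    constructor
    · rintro ⟨q, hq, rfl⟩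
      exact rank_const G hq hp
    · rintro rfl
      exact ⟨p, hp, rfl⟩
  unfold genericRank
  rw [h, csSup_singleton]

theorem exists_generic : ∃ p : V → EuclideanSpace ℝ (Fin d), IsGeneric p := by
  obtain ⟨x, hx⟩ := (dense_algInd (ι := V × Fin d) (K := (⊥ : SF))).nonempty
  refine ⟨fun v => WithLp.toLp 2 fun a => x (v, a), ?_⟩
  exact rat_of_sf hx

theorem dot_row (p : V → EuclideanSpace ℝ (Fin d)) (m : Conf d V) (x y : V) :
    rigidityRow p x y ⬝ᵥ unc m = fl (co p) m x y := by
  have h1 : ∀ k : V, ∑ a : Fin d, rigidityRow p x y (k, a) * unc m (k, a) =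
      (if k = x then ∑ a, (p x a - p y a) * m k a else 0) +
        (if k = y then ∑ a, (p y a - p x a) * m k a else 0) := by
    intro k
    simp only [rigidityRow, unc, add_mul, ite_mul, zero_mul, Finset.sum_add_distrib]
    congr 1
    · split_ifs <;> simp
    · split_ifs <;> simp
  simp only [dotProduct]
  rw [Fintype.sum_prod_type, Finset.sum_congr rfl fun k _ => h1 k, Finset.sum_add_distrib,
    Finset.sum_ite_eq' Finset.univ x, Finset.sum_ite_eq' Finset.univ y,
    if_pos (Finset.mem_univ _), if_pos (Finset.mem_univ _), ← Finset.sum_add_distrib]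
  unfold fl
  refine Finset.sum_congr rfl fun a _ => ?_
  simp only [co]
  ring

theorem lk_of_linked {G : SimpleGraph V} {u v : V} (h : Linked d G u v) (P : Conf d V)
    (hP : Gen P) : Lk G P u v := by
  by_cases huv : u = v
  · intro m _
    rw [huv, fl_self]
  let p : V → EuclideanSpace ℝ (Fin d) := fun v => WithLp.toLp 2 (P v)
  have hpP : co p = P := rfl
  have hp : IsGeneric p := hP
  have h1 : frameworkRank (G ⊔ SimpleGraph.edge u v) p = frameworkRank G p := by
    rw [genericRank_eq _ hp, genericRank_eq _ hp]; exact h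
  have h2 : Submodule.span ℝ {r | ∃ x y, G.Adj x y ∧ r = rigidityRow p x y} ≤
      Submodule.span ℝ {r | ∃ x y, (G ⊔ SimpleGraph.edge u v).Adj x y ∧
        r = rigidityRow p x y} := by
    apply Submodule.span_mono
    rintro _ ⟨x, y, hxy, rfl⟩
    exact ⟨x, y, Or.inl hxy, rfl⟩
  have h3 := Submodule.eq_of_le_of_finrank_eq h2 h1.symm
  have h4 : rigidityRow p u v ∈
      Submodule.span ℝ {r | ∃ x y, G.Adj x y ∧ r = rigidityRow p x y} := by
    rw [h3]
    refine Submodule.subset_span ⟨u, v, Or.inr ?_, rfl⟩
    rw [SimpleGraph.edge_adj]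
    exact ⟨Or.inl ⟨rfl, rfl⟩, huv⟩
  intro m hm
  have h5 : ∀ z ∈ Submodule.span ℝ {r | ∃ x y, G.Adj x y ∧ r = rigidityRow p x y},
      z ⬝ᵥ unc m = 0 := by
    intro z hz
    induction hz using Submodule.span_induction with
    | mem z hz =>
      obtain ⟨x, y, hxy, rfl⟩ := hz
      rw [dot_row]
      exact hm x y hxy
    | zero => exact zero_dotProduct _
    | add x y _ _ hx hy => rw [add_dotProduct, hx, hy, add_zero]
    | smul c x _ hx => rw [smul_dotProduct, hx, smul_zero]
  have h6 := h5 _ h4
  rw [dot_row] at h6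
  exact h6

theorem norm_sq_eq (p : V → EuclideanSpace ℝ (Fin d)) (x y : V) :
    ‖p x - p y‖ ^ 2 = fl (co p) (co p) x y := by
  rw [EuclideanSpace.norm_sq_eq]
  unfold fl
  refine Finset.sum_congr rfl fun a _ => ?_
  simp only [PiLp.sub_apply, Real.norm_eq_abs, sq_abs, co]
  ring

theorem norm_eq_iff (p q : V → EuclideanSpace ℝ (Fin d)) (x y : V) :
    ‖p x - p y‖ = ‖q x - q y‖ ↔ fl (co q) (co q) x y = fl (co p) (co p) x y := by
  rw [← norm_sq_eq, ← norm_sq_eq, ← sq_eq_sq₀ (norm_nonneg _) (norm_nonneg _)]
  exact eq_comm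

end aux

/-- For every finite graph `G`, every `d` and every pair `{u, v}`: generic realizations exist and
the rank of the rigidity matrix is the same number `r_d(G)` for all of them; and if `{u, v}` is
linked in `G` in dimension `d + 1`, then `{u, v}` is globally linked in `G` in dimension `d`. -/
theorem result
    (V : Type w) [Fintype V] [DecidableEq V] (d : ℕ) (G : SimpleGraph V) (u v : V) :
    ((∃ p : V → EuclideanSpace ℝ (Fin d), IsGeneric p) ∧
      ∀ p : V → EuclideanSpace ℝ (Fin d), IsGeneric p → frameworkRank G p = genericRank d G) ∧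
    (Linked (d + 1) G u v → GloballyLinked d G u v) := by
  refine ⟨⟨exists_generic, fun p hp => genericRank_eq G hp⟩, ?_⟩
  intro hL p hp q hpq
  rw [norm_eq_iff]
  exact Pool.Agent.Helper55K1.LK.core (gen_co.2 hp)
    (fun i j hij => (norm_eq_iff p q i j).1 (hpq i j hij))
    (fun P hP => lk_of_linked hL P hP)

end Pool.Agent.Results.MP_32f1bc_co.LinkedGloballyLinked
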